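import Pool.Agent.Helper89.MG.Agf2L
import Pool.Agent.Helper39.LIP.Tcn
import Pool.Agent.Helper42.NS.Hfb

/-! LAB (LIP(A), sect. 5), form of a system of lines: on the space of a label `kappa_c` affine functions `L` with
derivative one in the direction `i` and size `2 ^ (-τ n)` at the point, which agree, for copies given each of the two
conditions, up to `2 ^ (-τ n)` modulo a known 1-form. Then, on an event of positive probability, there is an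
admissible 1-form with derivative `2 ^ (2 τ n)` in the direction `i`. -/

set_option autoImplicit false

namespace Pool.Agent.Helper89.LX

open Finset Filter Topology Matrix Pool.Agent.Helper69.RK Pool.Agent.Helper31.EC Pool.Agent.Helper31.EC.Sp
open Pool.Agent.Helper40.EL Pool.Agent.Helper3.LF
open Pool.Agent.Helper95.LF (PdM)

noncomputable section

variable {S : Sp} {m : ℕ}

/-- the vectors `L`, `L'` agree up to `2 ^ ((e - 2 τ) n)` modulo the forms `a`, `a'`, which agree up to `2 ^ (e n)` -/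
def AgV {ι : Type} [Fintype ι] (n e τ : ℝ) (a a' : Matrix ι ι ℝ) (L L' : ι → ℝ) : Prop :=
  (∀ v, qf a v ≤ 2 ^ (e * n) * qf a' v) ∧ (∀ v, qf a' v ≤ 2 ^ (e * n) * qf a v) ∧
  ∀ v, ((L - L') ⬝ᵥ v) ^ 2 ≤ 2 ^ ((e - 2 * τ) * n) * qf a v

theorem qf_vec {ι : Type} [Fintype ι] (c v : ι → ℝ) : qf (Matrix.vecMulVec c c) v = (c ⬝ᵥ v) ^ 2 := by
  unfold qf
  rw [Matrix.vecMulVec_mulVec, dotProduct_smul, dotProduct_comm v c]
  show (c ⬝ᵥ v) * (c ⬝ᵥ v) = _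
  ring

theorem Psd_vec {ι : Type} [Fintype ι] (c : ι → ℝ) : Psd (Matrix.vecMulVec c c) := by
  refine ⟨?_, fun v => by rw [qf_vec]; exact sq_nonneg _⟩
  ext i j
  show c j * c i = c i * c j
  ring

theorem AgV.nrm {ι : Type} [Fintype ι] {n e τ : ℝ} (h1 : 1 ≤ e * n) {a a' : Matrix ι ι ℝ}
    {L L' : ι → ℝ} (ha : Psd a) (ha' : Psd a') (h : AgV n e τ a a' L L') :
    NrM (3 * e * n) a (Matrix.vecMulVec ((2 : ℝ) ^ (τ * n) • L) ((2 : ℝ) ^ (τ * n) • L)) a'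
      (Matrix.vecMulVec ((2 : ℝ) ^ (τ * n) • L') ((2 : ℝ) ^ (τ * n) • L')) := by
  obtain ⟨u1, u2, u3⟩ := h
  have h2 := NrM_vec (r := e * n) (L := (2 : ℝ) ^ (τ * n) • L) (L' := (2 : ℝ) ^ (τ * n) • L') (by linarith) u1 u2 ha
    ha' (fun v => by
      rw [← smul_sub, smul_dotProduct, smul_eq_mul, mul_pow]
      have e1 : ((2 : ℝ) ^ (τ * n)) ^ 2 * 2 ^ ((e - 2 * τ) * n) = 2 ^ (e * n) := by
        rw [← Real.rpow_natCast, ← Real.rpow_mul (by norm_num), ← Real.rpow_add (by norm_num)]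
        congr 1
        push_cast
        ring
      rw [← e1, mul_assoc]
      exact mul_le_mul_of_nonneg_left (u3 v) (by positivity))
  exact h2.mono (by linarith) ha (Psd_vec _) ha' (Psd_vec _)

theorem sph_monG (s : Sys S m) (D : ℕ) : MonG (gau s D).φ := fun k ω M N c _ h => sph_mono s D k ω M N c h

/-- LAB, SYSTEM LEVEL. `a` = a known 1-form between the identity and the cap (e.g. `1 + g₀`), typically bounded at the
point; `L` = affine functions with derivative one in the direction `i`, typically `2 ^ (-τ n)` at the point, which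
agree modulo `a` for the copies `DA` given `(V, A(c₀))` and the copies `DB` given `(LB, B)` -/
theorem lab_sys (m : ℕ) : ∃ Cc : ℝ, 0 ≤ Cc ∧ ∀ {S : Sp} (s : Sys S m) {c₀ : ℝ} {l : Lab S} (_ : IsKap s c₀ l)
    (LB : ∀ k, Setoid (l k).T.Ω) (_ : ∀ k, LB k ≤ (l k).V) (_ : Nul S (fun k => ((l k).wV (LB k)).leak (cB s k)))
    (DA DB : ∀ k, FAm (l k).T (l k).T) (_ : ∀ k, (DA k).f = (DA k).g)
    (_ : ∀ k, (fc (Setoid.ker (DA k).f) : FL (l k).T) ≤ (l k).v ⊔ (l k).p.map (cA s c₀ k))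
    (_ : ∀ k, (fc (Setoid.ker (DB k).f) : FL (l k).T) ≤ fc (LB k) ⊔ (l k).p.map (cB s k))
    (a : ∀ k, (l k).T.Ω → Matrix (Mon (m + 1) 1) (Mon (m + 1) 1) ℝ) (L : ∀ k, (l k).T.Ω → Mon (m + 1) 1 → ℝ)
    (_ : ∀ᶠ k in UF, ∀ ω, (l k).T.μ ω ≠ 0 → Cpd ((gau s 1).cp k) (a k ω))
    (_ : ∀ η : ℝ, 0 < η → ∀ᶠ k in UF, (l k).T.pb (fun ω =>
      ¬ sph s 1 k ((l k).p.π ω) (a k ω) ≤ 2 ^ (η * (S.F k).n)) ≤ η)
    (i : Fin (m + 1)) (_ : ∀ᶠ k in UF, ∀ ω, (l k).T.μ ω ≠ 0 → L k ω ⬝ᵥ dd i 0 = 1) (τ : ℝ)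
    (_ : ∀ η : ℝ, 0 < η → ∀ᶠ k in UF, (l k).T.pb (fun ω =>
      ¬ sph s 1 k ((l k).p.π ω) (Matrix.vecMulVec (L k ω) (L k ω)) ≤ 2 ^ ((η - 2 * τ) * (S.F k).n)) ≤ η)
    (e : ℝ) (_ : 0 < e) {p q : ℝ} (_ : 1 < p + q)
    (_ : ∀ᶠ k in UF, p ≤ (DA k).sp.pb (fun w => AgV (S.F k).n e τ (a k w.1) (a k w.2) (L k w.1) (L k w.2)))
    (_ : ∀ᶠ k in UF, q ≤ (DB k).sp.pb (fun w => AgV (S.F k).n e τ (a k w.1) (a k w.2) (L k w.1) (L k w.2))),
    ∃ (p0 : ℝ) (E : ∀ k, (l.sp.F k).Ω → Prop), 0 < p0 ∧ p0 ≤ ul (l.sp.pr E) ∧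
      ∃ y : ∀ k, FD ((Sp.im l.pj E).F k) (Mon (m + 1) 1),
        ((gau s 1).im l.pj E).Ad ((cA s c₀).im l.pj E) ((cB s).im l.pj E) y ∧
        ∀ e' : ℝ, 0 < e' → Tendsto (fun k => (y k).l.T.pb (fun ω =>
          ¬ 2 ^ ((2 * τ - Cc * e - e') * (S.F k).n) ≤ qf ((y k).g ω) (dd i (ptf s k ((y k).l.p.π ω))))) UF (𝓝 0) := by
  classical
  obtain ⟨Cc, hCc, h⟩ := lab_modGL (Mon (m + 1) 1)
  refine ⟨Cc * 3, by positivity, ?_⟩
  intro S s c₀ l hl LB hLB hLl DA DB hD hYA hYB a L ha haφ i hL τ hLφ e he p q hpq hp hq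
  have hlarge : ∀ᶠ k in UF, 1 ≤ e * (S.F k).n := by
    filter_upwards [S.lim.eventually (eventually_ge_atTop (1 / e))] with k hk
    rw [div_le_iff₀ he] at hk
    linarith
  have key : ∀ (D : ∀ k, FAm (l k).T (l k).T) (r : ℝ),
      (∀ᶠ k in UF, r ≤ (D k).sp.pb (fun w => AgV (S.F k).n e τ (a k w.1) (a k w.2) (L k w.1) (L k w.2))) →
      ∀ᶠ k in UF, r ≤ (D k).sp.pb (fun w => NrM (3 * e * (S.F k).n) (a k w.1)
        (Matrix.vecMulVec ((2 : ℝ) ^ (τ * (S.F k).n) • L k w.1) ((2 : ℝ) ^ (τ * (S.F k).n) • L k w.1)) (a k w.2)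
        (Matrix.vecMulVec ((2 : ℝ) ^ (τ * (S.F k).n) • L k w.2) ((2 : ℝ) ^ (τ * (S.F k).n) • L k w.2))) := by
    intro D r hr
    filter_upwards [hr, ha, hlarge] with k h1 h2 h3
    refine h1.trans (FSp.pb_mono _ ?_)
    intro w hw hN
    exact AgV.nrm h3 (h2 _ ((D k).p1.supp w hw)).psd (h2 _ ((D k).p2.supp w hw)).psd hN
  obtain ⟨p0, E, hp0, hE, y, hy, hlow⟩ := h (gau s 1) (sph_monG s 1) (A := cA s c₀) (B := cB s) hl (cA_Bd s c₀)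
    (fun E => cA_im_Bd s c₀ l.pj E) LB hLB hLl DA DB hD hYA hYB a
    (fun k ω => Matrix.vecMulVec ((2 : ℝ) ^ (τ * (S.F k).n) • L k ω) ((2 : ℝ) ^ (τ * (S.F k).n) • L k ω))
    (by filter_upwards [ha] with k hk ω hω using ⟨hk ω hω, Psd_vec _⟩) haφ (by
      intro η hη
      filter_upwards [hLφ η hη] with k hk
      refine le_trans (FSp.pb_mono _ ?_) hk
      intro ω _ h1 h2
      apply h1
      have e1 : Matrix.vecMulVec ((2 : ℝ) ^ (τ * (S.F k).n) • L k ω) ((2 : ℝ) ^ (τ * (S.F k).n) • L k ω) =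
          (((2 : ℝ) ^ (τ * (S.F k).n)) ^ 2) • Matrix.vecMulVec (L k ω) (L k ω) := by
        ext i j
        show (2 : ℝ) ^ (τ * (S.F k).n) * L k ω i * ((2 : ℝ) ^ (τ * (S.F k).n) * L k ω j) =
          ((2 : ℝ) ^ (τ * (S.F k).n)) ^ 2 * (L k ω i * L k ω j)
        ring
      have e2 : ((2 : ℝ) ^ (τ * (S.F k).n)) ^ 2 * 2 ^ ((η - 2 * τ) * (S.F k).n) = 2 ^ (η * (S.F k).n) := by
        rw [← Real.rpow_natCast, ← Real.rpow_mul (by norm_num), ← Real.rpow_add (by norm_num)]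
        congr 1
        push_cast
        ring
      show sph s 1 k ((l k).p.π ω) (Matrix.vecMulVec ((2 : ℝ) ^ (τ * (S.F k).n) • L k ω)
        ((2 : ℝ) ^ (τ * (S.F k).n) • L k ω)) ≤ 2 ^ (η * (S.F k).n)
      rw [e1, ← e2]
      unfold sph at h2 ⊢
      rw [phi_smul]
      exact mul_le_mul_of_nonneg_left h2 (by positivity))
    (3 * e) (by linarith) hpq (key DA p hp) (key DB q hq)
  refine ⟨p0, E, hp0, hE, y, hy, fun e' he' => ?_⟩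
  have h1 := hlow (fun k ω A => qf A (dd i (ptf s k ω))) (fun k ω M N c _ h => h _) (2 * τ) (fun e'' he'' => by
    have h2 : ∀ᶠ k in UF, (l k).T.pb (fun ω => ¬ 2 ^ ((2 * τ - e'') * (S.F k).n) ≤
        qf (a k ω + Matrix.vecMulVec ((2 : ℝ) ^ (τ * (S.F k).n) • L k ω) ((2 : ℝ) ^ (τ * (S.F k).n) • L k ω))
          (dd i (ptf s k ((l k).p.π ω)))) = 0 := by
      filter_upwards [ha, hL] with k h1 h2
      apply Finset.sum_eq_zero
      intro ω _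
      by_cases h3 : (l k).T.μ ω = 0
      · unfold res
        rw [h3, ite_self]
      · rw [res_neg]
        intro h4
        apply h4
        rw [qf_add, qf_vec, smul_dotProduct, Pool.Agent.Helper39.LIP.dd_one i (ptf s k ((l k).p.π ω)) 0, h2 ω h3,
          smul_eq_mul, mul_one]
        have e1 : ((2 : ℝ) ^ (τ * (S.F k).n)) ^ 2 = 2 ^ (2 * τ * (S.F k).n) := by
          rw [← Real.rpow_natCast, ← Real.rpow_mul (by norm_num)]
          congr 1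
          push_cast
          ring
        have e2 := (h1 ω h3).psd.2 (dd i (0 : Fin (m + 1) → ℝ))
        have e3 : (2 : ℝ) ^ ((2 * τ - e'') * (S.F k).n) ≤ 2 ^ (2 * τ * (S.F k).n) := by
          apply Real.rpow_le_rpow_of_exponent_le (by norm_num)
          have := (S.F k).pos
          nlinarith
        rw [e1]
        linarith
    exact tendsto_const_nhds.congr' (h2.mono fun k hk => hk.symm)) e' he'
  refine h1.congr fun k => ?_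
  congr 1
  funext ω
  congr 2
  ring_nf

/-- the derivative in one direction is at most the gradient -/
theorem dd_le_sga (s : Sys S m) (k : ℕ) (ω : (S.F k).Ω) {A : Matrix (Mon (m + 1) 1) (Mon (m + 1) 1) ℝ} (hA : Psd A)
    (i : Fin (m + 1)) : qf A (dd i (ptf s k ω)) ≤ sga s 1 k ω A := by
  unfold sga gam
  have h1 : ∀ (i' : Fin (m + 1)) (j : Fin (m + 1) → Fin (1 + 1)), 0 ≤ (dd i' (nodp 1 (ptf s k ω) (S.dl 1 k) j) :
      Mon (m + 1) 1 → ℝ) ⬝ᵥ (A *ᵥ dd i' (nodp 1 (ptf s k ω) (S.dl 1 k) j)) := fun i' j => hA.2 _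
  have h2 := Finset.single_le_sum (f := fun i' => ∑ j : Fin (m + 1) → Fin (1 + 1),
    (dd i' (nodp 1 (ptf s k ω) (S.dl 1 k) j) : Mon (m + 1) 1 → ℝ) ⬝ᵥ (A *ᵥ dd i' (nodp 1 (ptf s k ω) (S.dl 1 k) j)))
    (fun i' _ => Finset.sum_nonneg fun j _ => h1 i' j) (Finset.mem_univ i)
  have h3 := Finset.single_le_sum (f := fun j : Fin (m + 1) → Fin (1 + 1) =>
    (dd i (nodp 1 (ptf s k ω) (S.dl 1 k) j) : Mon (m + 1) 1 → ℝ) ⬝ᵥ (A *ᵥ dd i (nodp 1 (ptf s k ω) (S.dl 1 k) j)))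
    (fun j _ => h1 i j) (Finset.mem_univ (fun _ => 0))
  have h4 : qf A (dd i (ptf s k ω)) = (dd i (nodp 1 (ptf s k ω) (S.dl 1 k) fun _ => 0) : Mon (m + 1) 1 → ℝ) ⬝ᵥ
      (A *ᵥ dd i (nodp 1 (ptf s k ω) (S.dl 1 k) fun _ => 0)) := by
    unfold qf
    rw [Pool.Agent.Helper39.LIP.dd_one i (ptf s k ω) (nodp 1 (ptf s k ω) (S.dl 1 k) fun _ => 0)]
  rw [h4]
  exact h3.trans h2

/-- the gradient version of the conclusion: `H_1` on the restricted system -/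
theorem Hf_of_dir {s : Sys S m} {c₀ σ : ℝ} {T : Sp} (P : Pj T S) (E : ∀ k, (T.F k).Ω → Prop) (hE : 0 < ul (T.pr E))
    {y : ∀ k, FD ((Sp.im P E).F k) (Mon (m + 1) 1)}
    (hy : ((gau s 1).im P E).Ad ((cA s c₀).im P E) ((cB s).im P E) y) (i : Fin (m + 1))
    (hlow : ∀ e' : ℝ, 0 < e' → Tendsto (fun k => (y k).l.T.pb (fun ω =>
      ¬ 2 ^ ((2 * σ - e') * (S.F k).n) ≤ qf ((y k).g ω) (dd i (ptf s k ((y k).l.p.π ω))))) UF (𝓝 0)) :
    Hf (s.im P E hE) 1 c₀ σ := by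
  refine ⟨y, hy, fun e he => ?_⟩
  have h1 := hlow (2 * e) (by linarith)
  have hc : ∀ᶠ k in UF, ∀ ω, (y k).l.T.μ ω ≠ 0 → Cpd ((gau s 1).cp k) ((y k).g ω) := by
    filter_upwards [hy 1 one_pos] with k hk ω hω using (hk.2.2.1 ω hω).1
  refine tendsto_of_tendsto_of_tendsto_of_le_of_le' tendsto_const_nhds h1
    (Eventually.of_forall fun k => FSp.pb_nonneg _ _) ?_
  filter_upwards [hc] with k hk
  apply FSp.pb_mono
  intro ω hω h2 h3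
  apply h2
  have h4 : qf ((y k).g ω) (dd i (ptf s k ((y k).l.p.π ω))) ≤ sga s 1 k ((y k).l.p.π ω) ((y k).g ω) :=
    dd_le_sga s k _ (hk ω hω).psd i
  refine le_trans ?_ h4
  refine le_trans (le_of_eq ?_) h3
  congr 1
  show 2 * (σ - e) * (S.F k).n = (2 * σ - 2 * e) * (S.F k).n
  ring

/-- LAB FOR ROBUST SYSTEMS: `H_1(c₀, τ - C e)` -/
theorem lab_rob (m : ℕ) : ∃ Cc : ℝ, 0 ≤ Cc ∧ ∀ {S : Sp} (s : Sys S m) (_ : Pool.Agent.Helper42.NS.RobH s) {c₀ : ℝ}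
    {l : Lab S} (_ : IsKap s c₀ l)
    (LB : ∀ k, Setoid (l k).T.Ω) (_ : ∀ k, LB k ≤ (l k).V) (_ : Nul S (fun k => ((l k).wV (LB k)).leak (cB s k)))
    (DA DB : ∀ k, FAm (l k).T (l k).T) (_ : ∀ k, (DA k).f = (DA k).g)
    (_ : ∀ k, (fc (Setoid.ker (DA k).f) : FL (l k).T) ≤ (l k).v ⊔ (l k).p.map (cA s c₀ k))
    (_ : ∀ k, (fc (Setoid.ker (DB k).f) : FL (l k).T) ≤ fc (LB k) ⊔ (l k).p.map (cB s k))
    (a : ∀ k, (l k).T.Ω → Matrix (Mon (m + 1) 1) (Mon (m + 1) 1) ℝ) (L : ∀ k, (l k).T.Ω → Mon (m + 1) 1 → ℝ)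
    (_ : ∀ᶠ k in UF, ∀ ω, (l k).T.μ ω ≠ 0 → Cpd ((gau s 1).cp k) (a k ω))
    (_ : ∀ η : ℝ, 0 < η → ∀ᶠ k in UF, (l k).T.pb (fun ω =>
      ¬ sph s 1 k ((l k).p.π ω) (a k ω) ≤ 2 ^ (η * (S.F k).n)) ≤ η)
    (i : Fin (m + 1)) (_ : ∀ᶠ k in UF, ∀ ω, (l k).T.μ ω ≠ 0 → L k ω ⬝ᵥ dd i 0 = 1) (τ : ℝ)
    (_ : ∀ η : ℝ, 0 < η → ∀ᶠ k in UF, (l k).T.pb (fun ω =>
      ¬ sph s 1 k ((l k).p.π ω) (Matrix.vecMulVec (L k ω) (L k ω)) ≤ 2 ^ ((η - 2 * τ) * (S.F k).n)) ≤ η)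
    (e : ℝ) (_ : 0 < e) {p q : ℝ} (_ : 1 < p + q)
    (_ : ∀ᶠ k in UF, p ≤ (DA k).sp.pb (fun w => AgV (S.F k).n e τ (a k w.1) (a k w.2) (L k w.1) (L k w.2)))
    (_ : ∀ᶠ k in UF, q ≤ (DB k).sp.pb (fun w => AgV (S.F k).n e τ (a k w.1) (a k w.2) (L k w.1) (L k w.2))),
    Hf s 1 c₀ (τ - Cc * e) := by
  obtain ⟨Cc, hCc, h⟩ := lab_sys m
  refine ⟨Cc / 2, by positivity, ?_⟩
  intro S s hR c₀ l hl LB hLB hLl DA DB hD hYA hYB a L ha haφ i hL τ hLφ e he p q hpq hp hq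
  obtain ⟨p0, E, hp0, hE, y, hy, hlow⟩ := h s hl LB hLB hLl DA DB hD hYA hYB a L ha haφ i hL τ hLφ e he hpq hp hq
  have hE' : 0 < ul (l.sp.pr E) := lt_of_lt_of_le hp0 hE
  refine (hR.Hf_im l.pj E hE').mp (Hf_of_dir l.pj E hE' hy i (σ := τ - Cc / 2 * e) fun e' he' => ?_)
  refine (hlow e' he').congr fun k => ?_
  congr 1
  funext ω
  congr 2
  ring_nf

end

end Pool.Agent.Helper89.LX
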