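import Pool.Agent.Helper89.MG.Lbl

/-! AGREEMENT OF FORMS MODULO A KNOWN FORM (LIP(A), sect. 5): on the space of a maximal label a known form `a` and forms
`b` of typical size `2 ^ (o(n))` which agree, modulo `a`, for copies given each of the two conditions with total
probability above one. Then on an event the form `a + b` is carried by an exact label. -/

set_option autoImplicit false

namespace Pool.Agent.Helper89.LX

open Finset Filter Topology Matrix Pool.Agent.Helper69.RK Pool.Agent.Helper31.EC Pool.Agent.Helper40.EL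
open Pool.Agent.Helper95.LF (PdM NearM round_mat values_card)

noncomputable section

/-- `b` and `b'` agree modulo `a`, `a'` up to the factor `2 ^ r` -/
def NrM {ι : Type} [Fintype ι] (r : ℝ) (a b a' b' : Matrix ι ι ℝ) : Prop :=
  (∀ v, qf a v ≤ 2 ^ r * qf a' v) ∧ (∀ v, qf a' v ≤ 2 ^ r * qf a v) ∧
  (∀ v, qf b v ≤ 2 ^ r * (qf a' v + qf b' v)) ∧ ∀ v, qf b' v ≤ 2 ^ r * (qf a v + qf b v)

theorem NrM.mono {ι : Type} [Fintype ι] {r r' : ℝ} (hr : r ≤ r') {a b a' b' : Matrix ι ι ℝ}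
    (ha : Psd a) (hb : Psd b) (ha' : Psd a') (hb' : Psd b') (h : NrM r a b a' b') : NrM r' a b a' b' := by
  have h1 : (2 : ℝ) ^ r ≤ 2 ^ r' := Real.rpow_le_rpow_of_exponent_le (by norm_num) hr
  obtain ⟨h2, h3, h4, h5⟩ := h
  refine ⟨fun v => (h2 v).trans ?_, fun v => (h3 v).trans ?_, fun v => (h4 v).trans ?_, fun v => (h5 v).trans ?_⟩
  · exact mul_le_mul_of_nonneg_right h1 (ha'.2 v)
  · exact mul_le_mul_of_nonneg_right h1 (ha.2 v)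
  · exact mul_le_mul_of_nonneg_right h1 (add_nonneg (ha'.2 v) (hb'.2 v))
  · exact mul_le_mul_of_nonneg_right h1 (add_nonneg (ha.2 v) (hb.2 v))

/-- vectors which differ by a vector bounded by the known form -/
theorem NrM_vec {ι : Type} [Fintype ι] {r : ℝ} (hr : 0 ≤ r) {a a' : Matrix ι ι ℝ} {L L' : ι → ℝ}
    (h1 : ∀ v, qf a v ≤ 2 ^ r * qf a' v) (h2 : ∀ v, qf a' v ≤ 2 ^ r * qf a v)
    (ha : Psd a) (ha' : Psd a') (h3 : ∀ v, ((L - L') ⬝ᵥ v) ^ 2 ≤ 2 ^ r * qf a v) :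
    NrM (2 * r + 1) a (Matrix.vecMulVec L L) a' (Matrix.vecMulVec L' L') := by
  have hq : ∀ (c v : ι → ℝ), qf (Matrix.vecMulVec c c) v = (c ⬝ᵥ v) ^ 2 := by
    intro c v
    unfold qf
    rw [Matrix.vecMulVec_mulVec, dotProduct_smul, dotProduct_comm v c]
    show (c ⬝ᵥ v) * (c ⬝ᵥ v) = _
    ring
  have e1 : (1 : ℝ) ≤ 2 ^ r := Real.one_le_rpow (by norm_num) hr
  have e2 : (2 : ℝ) ^ (2 * r + 1) = 2 * (2 ^ r * 2 ^ r) := by
    rw [Real.rpow_add_one (by norm_num), two_mul, Real.rpow_add (by norm_num)]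
    ring
  have e3 : (2 : ℝ) ^ r ≤ 2 ^ (2 * r + 1) := Real.rpow_le_rpow_of_exponent_le (by norm_num) (by linarith)
  refine ⟨fun v => (h1 v).trans (mul_le_mul_of_nonneg_right e3 (ha'.2 v)),
    fun v => (h2 v).trans (mul_le_mul_of_nonneg_right e3 (ha.2 v)), fun v => ?_, fun v => ?_⟩
  · rw [hq, hq, e2]
    have u1 : L ⬝ᵥ v = L' ⬝ᵥ v + (L - L') ⬝ᵥ v := by rw [sub_dotProduct]; ring
    have u2 := h3 v
    have u3 := h1 v
    have u4 := ha'.2 v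
    have u5 : (2 : ℝ) ^ r * qf a v ≤ 2 ^ r * (2 ^ r * qf a' v) := mul_le_mul_of_nonneg_left u3 (by positivity)
    have u6 : (L' ⬝ᵥ v) ^ 2 ≤ 2 ^ r * 2 ^ r * (L' ⬝ᵥ v) ^ 2 :=
      le_mul_of_one_le_left (sq_nonneg _) (one_le_mul_of_one_le_of_one_le e1 e1)
    rw [u1]
    nlinarith [sq_nonneg (L' ⬝ᵥ v - (L - L') ⬝ᵥ v)]
  · rw [hq, hq, e2]
    have u1 : L' ⬝ᵥ v = L ⬝ᵥ v - (L - L') ⬝ᵥ v := by rw [sub_dotProduct]; ring
    have u2 := h3 v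
    have u4 := ha.2 v
    have u5 : (2 : ℝ) ^ r * qf a v ≤ 2 ^ r * 2 ^ r * qf a v := by
      rw [mul_assoc]
      exact mul_le_mul_of_nonneg_left (le_mul_of_one_le_left u4 e1) (by positivity)
    have u6 : (L ⬝ᵥ v) ^ 2 ≤ 2 ^ r * 2 ^ r * (L ⬝ᵥ v) ^ 2 :=
      le_mul_of_one_le_left (sq_nonneg _) (one_le_mul_of_one_le_of_one_le e1 e1)
    rw [u1]
    nlinarith [sq_nonneg (L ⬝ᵥ v + (L - L') ⬝ᵥ v)]

section
variable {ι : Type} [Fintype ι] [DecidableEq ι] {S : Sp} (Φ : Gau S ι)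

open Classical in
/-- the sum below the cap -/
def csum (cp : ℝ) (a b : Matrix ι ι ℝ) : Matrix ι ι ℝ := if Cpd cp (a + b) then a + b else a

omit [DecidableEq ι] in
theorem csum_Cpd {cp : ℝ} {a b : Matrix ι ι ℝ} (h : Cpd cp a) : Cpd cp (csum cp a b) := by
  unfold csum
  split_ifs with h1
  · exact h1
  · exact h

/-- the cap is typically not reached -/
theorem Gau.csum_typ {T : ∀ k, FSp} {π : ∀ k, (T k).Ω → (S.F k).Ω} (hπ : ∀ k ω, (T k).μ ω ≠ 0 → (S.F k).μ (π k ω) ≠ 0)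
    {a b : ∀ k, (T k).Ω → Matrix ι ι ℝ}
    (hab : ∀ᶠ k in UF, ∀ ω, (T k).μ ω ≠ 0 → Cpd (Φ.cp k) (a k ω) ∧ Psd (b k ω))
    (ha : ∀ η : ℝ, 0 < η → ∀ᶠ k in UF, (T k).pb (fun ω => ¬ Φ.φ k (π k ω) (a k ω) ≤ 2 ^ (η * (S.F k).n)) ≤ η)
    (hb : ∀ η : ℝ, 0 < η → ∀ᶠ k in UF, (T k).pb (fun ω => ¬ Φ.φ k (π k ω) (b k ω) ≤ 2 ^ (η * (S.F k).n)) ≤ η)
    {ε : ℝ} (hε : 0 < ε) : ∀ᶠ k in UF, (T k).pb (fun ω => ¬ Cpd (Φ.cp k) (a k ω + b k ω)) ≤ ε := by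
  set η : ℝ := min (ε / 4) (1 / 2) with hη
  have hη0 : 0 < η := lt_min (by linarith) (by norm_num)
  have hη1 : η ≤ 1 / 2 := min_le_right _ _
  have hη2 : η ≤ ε / 4 := min_le_left _ _
  have hnk : ∀ᶠ k in UF, (2 : ℝ) ≤ (S.F k).n := S.lim.eventually (eventually_ge_atTop 2)
  filter_upwards [ha η hη0, hb η hη0, hab, Φ.cap, hnk] with k h1 h2 h3 hcap hn2
  have hn := (S.F k).pos
  refine le_trans (le_trans (FSp.pb_mono _ (E' := fun ω => (¬ Φ.φ k (π k ω) (a k ω) ≤ 2 ^ (η * (S.F k).n)) ∨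
    (¬ Φ.φ k (π k ω) (b k ω) ≤ 2 ^ (η * (S.F k).n))) ?_) (pb_or _ _ _)) (by linarith)
  intro ω h0 h4
  by_contra hc
  push Not at hc
  apply h4
  obtain ⟨c1, c2⟩ := h3 ω h0
  refine ⟨c1.1.add c2.1, fun y => ?_, fun y => ?_⟩
  · rw [qf_add]
    have a := c1.2.1 y
    have b := c2.2 y
    linarith
  · have h5 := hcap (π k ω) (hπ k ω h0) _ (c1.pdM.add c2.1 c2.2) y
    rw [Φ.add] at h5
    refine h5.trans ?_
    apply mul_le_mul_of_nonneg_right _ (dot_self_nonneg y)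
    unfold Gau.cp
    rw [add_mul, one_mul, Real.rpow_add (by norm_num)]
    apply mul_le_mul_of_nonneg_left _ (by positivity)
    have e1 : (2 : ℝ) ^ (η * (S.F k).n) ≤ 2 ^ ((S.F k).n - 1) := by
      apply Real.rpow_le_rpow_of_exponent_le (by norm_num)
      nlinarith
    have e2 : (2 : ℝ) ^ ((S.F k).n) = 2 ^ ((S.F k).n - 1) * 2 := by
      rw [Real.rpow_sub_one (by norm_num)]; ring
    rw [e2]
    linarith [hc.1, hc.2]

end

/-- AGREEMENT MODULO A KNOWN FORM -/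
theorem lab_mod (ι : Type) [Fintype ι] [DecidableEq ι] : ∃ Cc : ℝ, 0 ≤ Cc ∧ ∀ {S : Sp} (Φ : Gau S ι) (_ : MonG Φ.φ)
    {A B : Part S} {l : Lab S} (_ : l.IsMax A B) (_ : A.Bd)
    (_ : ∀ E : ∀ k, (l.sp.F k).Ω → Prop, (A.im l.pj E).Bd)
    (DA DB : ∀ k, FAm (l k).T (l k).T) (_ : ∀ k, (DA k).f = (DA k).g)
    (_ : ∀ k, (fc (Setoid.ker (DA k).f) : FL (l k).T) ≤ (l k).v ⊔ (l k).p.map (A k))
    (_ : ∀ k, (fc (Setoid.ker (DB k).f) : FL (l k).T) ≤ (l k).v ⊔ (l k).p.map (B k))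
    (a b : ∀ k, (l k).T.Ω → Matrix ι ι ℝ)
    (_ : ∀ᶠ k in UF, ∀ ω, (l k).T.μ ω ≠ 0 → Cpd (Φ.cp k) (a k ω) ∧ Psd (b k ω))
    (_ : ∀ η : ℝ, 0 < η → ∀ᶠ k in UF, (l k).T.pb (fun ω => ¬ Φ.φ k ((l k).p.π ω) (a k ω) ≤ 2 ^ (η * (S.F k).n)) ≤ η)
    (_ : ∀ η : ℝ, 0 < η → ∀ᶠ k in UF, (l k).T.pb (fun ω => ¬ Φ.φ k ((l k).p.π ω) (b k ω) ≤ 2 ^ (η * (S.F k).n)) ≤ η)
    (e : ℝ) (_ : 0 < e) {p q : ℝ} (_ : 1 < p + q)
    (_ : ∀ᶠ k in UF, p ≤ (DA k).sp.pb (fun w => NrM (e * (S.F k).n) (a k w.1) (b k w.1) (a k w.2) (b k w.2)))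
    (_ : ∀ᶠ k in UF, q ≤ (DB k).sp.pb (fun w => NrM (e * (S.F k).n) (a k w.1) (b k w.1) (a k w.2) (b k w.2))),
    ∃ p0, 0 < p0 ∧ ∃ E M c, AgOut Φ ![A, B] l (fun k ω => csum (Φ.cp k) (a k ω) (b k ω)) p0 (Cc * e) E M c := by
  classical
  obtain ⟨Cc, hCc, h⟩ := agf_pair ι
  refine ⟨Cc * 2, by positivity, ?_⟩
  intro S Φ hφ A B l hl hA hA2 DA DB hD hYA hYB a b hab ha hb e he p q hpq hp hq
  set ε : ℝ := (p + q - 1) / 8 with hε
  have hε0 : 0 < ε := by rw [hε]; linarith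
  have htyp := Φ.csum_typ (T := fun k => (l k).T) (π := fun k => (l k).p.π) (fun k ω h => (l k).p.supp ω h) hab ha hb hε0
  have hlarge : ∀ᶠ k in UF, 1 ≤ e * (S.F k).n := by
    filter_upwards [S.lim.eventually (eventually_ge_atTop (1 / e))] with k hk
    rw [div_le_iff₀ he] at hk
    linarith
  have hnear : ∀ (D : ∀ k, FAm (l k).T (l k).T) (r : ℝ),
      (∀ᶠ k in UF, r ≤ (D k).sp.pb (fun w => NrM (e * (S.F k).n) (a k w.1) (b k w.1) (a k w.2) (b k w.2))) →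
      ∀ᶠ k in UF, r - 2 * ε ≤ (D k).sp.pb (fun w => Nr (e * 2 * (S.F k).n)
        (csum (Φ.cp k) (a k w.1) (b k w.1)) (csum (Φ.cp k) (a k w.2) (b k w.2))) := by
    intro D r hr
    filter_upwards [hr, htyp, hab, hlarge] with k h1 h2 h3 h4
    have p1 := pb_push (D k).p1 (fun ω => ¬ Cpd (Φ.cp k) (a k ω + b k ω))
    have p2 := pb_push (D k).p2 (fun ω => ¬ Cpd (Φ.cp k) (a k ω + b k ω))
    have h5 : (D k).sp.pb (fun w => NrM (e * (S.F k).n) (a k w.1) (b k w.1) (a k w.2) (b k w.2)) ≤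
        (D k).sp.pb (fun w => Nr (e * 2 * (S.F k).n) (csum (Φ.cp k) (a k w.1) (b k w.1))
          (csum (Φ.cp k) (a k w.2) (b k w.2))) + ((D k).sp.pb (fun w => ¬ Cpd (Φ.cp k) (a k w.1 + b k w.1)) +
          (D k).sp.pb (fun w => ¬ Cpd (Φ.cp k) (a k w.2 + b k w.2))) := by
      refine le_trans (FSp.pb_mono _ ?_) ((pb_or _ _ _).trans (add_le_add le_rfl (pb_or _ _ _)))
      intro w hw hN
      by_cases c1 : Cpd (Φ.cp k) (a k w.1 + b k w.1)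
      · by_cases c2 : Cpd (Φ.cp k) (a k w.2 + b k w.2)
        · left
          unfold csum
          rw [if_pos c1, if_pos c2]
          obtain ⟨n1, n2, n3, n4⟩ := hN
          have s1 := h3 _ ((D k).p1.supp w hw)
          have s2 := h3 _ ((D k).p2.supp w hw)
          have e1 : (2 : ℝ) * 2 ^ (e * (S.F k).n) ≤ 2 ^ (e * 2 * (S.F k).n) := by
            rw [mul_comm, ← Real.rpow_add_one (by norm_num)]
            apply Real.rpow_le_rpow_of_exponent_le (by norm_num)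
            linarith
          have key : ∀ {a1 b1 a2 b2 : Matrix ι ι ℝ}, Psd a2 → Psd b2 →
              (∀ v, qf a1 v ≤ 2 ^ (e * (S.F k).n) * qf a2 v) →
              (∀ v, qf b1 v ≤ 2 ^ (e * (S.F k).n) * (qf a2 v + qf b2 v)) →
              ∀ v, qf (a1 + b1) v ≤ 2 ^ (e * 2 * (S.F k).n) * qf (a2 + b2) v := by
            intro a1 b1 a2 b2 ha2 hb2 u1 u2 v
            rw [qf_add, qf_add]
            have x1 := ha2.2 v
            have x2 := hb2.2 v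
            have x3 : (2 : ℝ) * 2 ^ (e * (S.F k).n) * (qf a2 v + qf b2 v) ≤
                2 ^ (e * 2 * (S.F k).n) * (qf a2 v + qf b2 v) := mul_le_mul_of_nonneg_right e1 (by linarith)
            have x4 : 0 ≤ (2 : ℝ) ^ (e * (S.F k).n) * qf b2 v := by positivity
            have := u1 v
            have := u2 v
            linarith
          exact ⟨key s2.1.psd s2.2 n1 n3, key s1.1.psd s1.2 n2 n4⟩
        · exact Or.inr (Or.inr c2)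
      · exact Or.inr (Or.inl c1)
    have h6 : (D k).sp.pb (fun w => ¬ Cpd (Φ.cp k) (a k w.1 + b k w.1)) = (l k).T.pb
        (fun ω => ¬ Cpd (Φ.cp k) (a k ω + b k ω)) := p1
    have h7 : (D k).sp.pb (fun w => ¬ Cpd (Φ.cp k) (a k w.2 + b k w.2)) = (l k).T.pb
        (fun ω => ¬ Cpd (Φ.cp k) (a k ω + b k ω)) := p2
    rw [h6, h7] at h5
    linarith
  obtain ⟨E, M, c, hag⟩ := h Φ hφ hl hA hA2 DA DB hD hYA hYB (fun k ω => csum (Φ.cp k) (a k ω) (b k ω))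
    (by filter_upwards [hab] with k hk ω hω using csum_Cpd (hk ω hω).1) (by
      intro η hη
      have hη4 : 0 < η / 4 := by linarith
      have hnk : ∀ᶠ k in UF, (4 / η : ℝ) ≤ (S.F k).n := S.lim.eventually (eventually_ge_atTop _)
      filter_upwards [ha _ hη4, hb _ hη4, hab, hnk] with k h1 h2 h3 hnk
      have hn := (S.F k).pos
      refine le_trans (le_trans (FSp.pb_mono _ (E' := fun ω =>
        (¬ Φ.φ k ((l k).p.π ω) (a k ω) ≤ 2 ^ (η / 4 * (S.F k).n)) ∨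
        (¬ Φ.φ k ((l k).p.π ω) (b k ω) ≤ 2 ^ (η / 4 * (S.F k).n))) ?_) (pb_or _ _ _)) (by linarith)
      intro ω h0 h4
      by_contra hc
      push Not at hc
      apply h4
      have e1 : (2 : ℝ) ^ (η / 4 * (S.F k).n) * 2 ≤ 2 ^ (η * (S.F k).n) := by
        rw [← Real.rpow_add_one (by norm_num)]
        apply Real.rpow_le_rpow_of_exponent_le (by norm_num)
        have : 1 ≤ η / 4 * (S.F k).n := by
          rw [div_le_iff₀ hη] at hnk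
          linarith
        nlinarith
      have hpos : (0 : ℝ) < 2 ^ (η / 4 * (S.F k).n) := by positivity
      unfold csum
      split_ifs
      · rw [Φ.add]
        linarith [hc.1, hc.2]
      · linarith [hc.1])
    (e * 2) (by linarith) (p := p - 2 * ε) (q := q - 2 * ε) (by rw [hε]; linarith) (hnear DA p hp) (hnear DB q hq)
  refine ⟨p - 2 * ε + (q - 2 * ε) - 1, by rw [hε]; linarith, E, M, c, ?_⟩
  have e2 : Cc * 2 * e = Cc * (e * 2) := by ring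
  rw [e2]
  exact hag

/-- the same with the lower bound of a monotone functional of `a + b` -/
theorem lab_modG (ι : Type) [Fintype ι] [DecidableEq ι] : ∃ Cc : ℝ, 0 ≤ Cc ∧ ∀ {S : Sp} (Φ : Gau S ι) (_ : MonG Φ.φ)
    {A B : Part S} {l : Lab S} (_ : l.IsMax A B) (_ : A.Bd)
    (_ : ∀ E : ∀ k, (l.sp.F k).Ω → Prop, (A.im l.pj E).Bd)
    (DA DB : ∀ k, FAm (l k).T (l k).T) (_ : ∀ k, (DA k).f = (DA k).g)
    (_ : ∀ k, (fc (Setoid.ker (DA k).f) : FL (l k).T) ≤ (l k).v ⊔ (l k).p.map (A k))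
    (_ : ∀ k, (fc (Setoid.ker (DB k).f) : FL (l k).T) ≤ (l k).v ⊔ (l k).p.map (B k))
    (a b : ∀ k, (l k).T.Ω → Matrix ι ι ℝ)
    (_ : ∀ᶠ k in UF, ∀ ω, (l k).T.μ ω ≠ 0 → Cpd (Φ.cp k) (a k ω) ∧ Psd (b k ω))
    (_ : ∀ η : ℝ, 0 < η → ∀ᶠ k in UF, (l k).T.pb (fun ω => ¬ Φ.φ k ((l k).p.π ω) (a k ω) ≤ 2 ^ (η * (S.F k).n)) ≤ η)
    (_ : ∀ η : ℝ, 0 < η → ∀ᶠ k in UF, (l k).T.pb (fun ω => ¬ Φ.φ k ((l k).p.π ω) (b k ω) ≤ 2 ^ (η * (S.F k).n)) ≤ η)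
    (e : ℝ) (_ : 0 < e) {p q : ℝ} (_ : 1 < p + q)
    (_ : ∀ᶠ k in UF, p ≤ (DA k).sp.pb (fun w => NrM (e * (S.F k).n) (a k w.1) (b k w.1) (a k w.2) (b k w.2)))
    (_ : ∀ᶠ k in UF, q ≤ (DB k).sp.pb (fun w => NrM (e * (S.F k).n) (a k w.1) (b k w.1) (a k w.2) (b k w.2))),
    ∃ (p0 : ℝ) (E : ∀ k, (l.sp.F k).Ω → Prop), 0 < p0 ∧ p0 ≤ ul (l.sp.pr E) ∧
      ∃ y : ∀ k, FD ((Sp.im l.pj E).F k) ι, (Φ.im l.pj E).Ad (A.im l.pj E) (B.im l.pj E) y ∧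
      ∀ (G : ∀ k, (S.F k).Ω → Matrix ι ι ℝ → ℝ), MonG G → ∀ σ : ℝ,
        (∀ e' : ℝ, 0 < e' → Tendsto (fun k => (l k).T.pb (fun ω =>
          ¬ 2 ^ ((σ - e') * (S.F k).n) ≤ G k ((l k).p.π ω) (a k ω + b k ω))) UF (𝓝 0)) →
        ∀ e' : ℝ, 0 < e' → Tendsto (fun k => (y k).l.T.pb (fun ω =>
          ¬ 2 ^ ((σ - Cc * e - e') * (S.F k).n) ≤ G k ((y k).l.p.π ω) ((y k).g ω))) UF (𝓝 0) := by
  classical
  obtain ⟨Cc, hCc, h⟩ := lab_mod ι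
  refine ⟨Cc, hCc, ?_⟩
  intro S Φ hφ A B l hl hA hA2 DA DB hD hYA hYB a b hab ha hb e he p q hpq hp hq
  obtain ⟨p0, hp0, E, M, c, hag⟩ := h Φ hφ hl hA hA2 DA DB hD hYA hYB a b hab ha hb e he hpq hp hq
  refine ⟨p0, E, hp0, hag.pr, _, hag.ad2, fun G hG σ hσ e' he' => ?_⟩
  apply hag.low G hG σ e'
  have htyp : Tendsto (fun k => (l k).T.pb (fun ω => ¬ Cpd (Φ.cp k) (a k ω + b k ω))) UF (𝓝 0) := by
    rw [Metric.tendsto_nhds]
    intro ε hε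
    have hε2 : 0 < ε / 2 := by linarith
    filter_upwards [Φ.csum_typ (T := fun k => (l k).T) (π := fun k => (l k).p.π) (fun k ω h => (l k).p.supp ω h)
      hab ha hb hε2] with k hk
    rw [Real.dist_eq, sub_zero, abs_of_nonneg ((l k).T.pb_nonneg _)]
    linarith
  have h1 := (hσ e' he').add htyp
  rw [add_zero] at h1
  refine tendsto_of_tendsto_of_tendsto_of_le_of_le tendsto_const_nhds h1 (fun k => (l k).T.pb_nonneg _) (fun k => ?_)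
  refine le_trans (FSp.pb_mono _ (E' := fun ω => (¬ 2 ^ ((σ - e') * (S.F k).n) ≤
    G k ((l k).p.π ω) (a k ω + b k ω)) ∨ ¬ Cpd (Φ.cp k) (a k ω + b k ω)) ?_) (pb_or _ _ _)
  intro ω _ h2
  by_cases h3 : Cpd (Φ.cp k) (a k ω + b k ω)
  · left
    intro h4
    apply h2
    show _ ≤ G k ((l k).p.π ω) (csum (Φ.cp k) (a k ω) (b k ω))
    unfold csum
    rw [if_pos h3]
    exact h4
  · exact Or.inr h3

end

end Pool.Agent.Helper89.LX
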